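import Mathlib
import Pool.Agent.Helper337.PolygonProofC

set_option autoImplicit false

/-! Stretching the short extra edges of a polygon by a homeomorphism of the plane. -/

namespace Pool.Agent.W263.Spur

open Set

/-- monotone map on lines -/
noncomputable def fwd (A B K S s t : ℝ) : ℝ :=
  max s (min ((1 + A) * s - A * (K * |t|)) ((1 - B) * s + B * S))

noncomputable def bwd (A B K S y t : ℝ) : ℝ :=
  min y (max ((y + A * (K * |t|)) / (1 + A)) ((y - B * S) / (1 - B)))

theorem bwd_fwd {A B K S : ℝ} (hA : 0 ≤ A) (hB0 : 0 ≤ B) (hB : B < 1) (s t : ℝ) :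
    bwd A B K S (fwd A B K S s t) t = s := by
  have h1 : 0 < 1 + A := by linarith
  have h2 : 0 < 1 - B := by linarith
  unfold bwd fwd
  set u := K * |t| with hu
  apply le_antisymm
  · -- min y (max a b) ≤ s
    rcases le_total s (min ((1 + A) * s - A * u) ((1 - B) * s + B * S)) with h | h
    · rw [max_eq_right h]
      apply min_le_of_right_le
      apply max_le
      · rw [div_le_iff₀ h1]
        have := min_le_left ((1 + A) * s - A * u) ((1 - B) * s + B * S)
        nlinarith
      · rw [div_le_iff₀ h2]
        have := min_le_right ((1 + A) * s - A * u) ((1 - B) * s + B * S)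
        nlinarith
    · rw [max_eq_left h]
      exact min_le_left _ _
  · apply le_min
    · exact le_max_left _ _
    · have hy : min ((1 + A) * s - A * u) ((1 - B) * s + B * S) ≤
        max s (min ((1 + A) * s - A * u) ((1 - B) * s + B * S)) := le_max_right _ _
      rcases le_total ((1 + A) * s - A * u) ((1 - B) * s + B * S) with h | h
      · rw [min_eq_left h] at hy ⊢
        apply le_max_of_le_left
        rw [le_div_iff₀ h1]
        linarith
      · rw [min_eq_right h] at hy ⊢
        apply le_max_of_le_right
        rw [le_div_iff₀ h2]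
        linarith

theorem fwd_bwd {A B K S : ℝ} (hA : 0 ≤ A) (hB0 : 0 ≤ B) (hB : B < 1) (y t : ℝ) :
    fwd A B K S (bwd A B K S y t) t = y := by
  have h1 : 0 < 1 + A := by linarith
  have h2 : 0 < 1 - B := by linarith
  unfold bwd fwd
  set u := K * |t| with hu
  have e1 : (1 + A) * ((y + A * u) / (1 + A)) - A * u = y := by field_simp; ring
  have e2 : (1 - B) * ((y - B * S) / (1 - B)) + B * S = y := by field_simp; ring
  set a := (y + A * u) / (1 + A) with ha
  set b := (y - B * S) / (1 - B) with hb
  apply le_antisymm
  · apply max_le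
    · exact min_le_left _ _
    · rcases le_total a b with h | h
      · rw [max_eq_right h]
        apply min_le_of_right_le
        have := min_le_right y b
        nlinarith
      · rw [max_eq_left h]
        apply min_le_of_left_le
        have := min_le_right y a
        nlinarith
  · rcases le_total y (max a b) with h | h
    · rw [min_eq_left h]
      exact le_max_left _ _
    · rw [min_eq_right h]
      apply le_max_of_le_right
      apply le_min
      · have := le_max_left a b
        nlinarith
      · have := le_max_right a b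
        nlinarith

/-- the core homeomorphism in coordinates -/
noncomputable def core (A B K S : ℝ) (hA : 0 ≤ A) (hB0 : 0 ≤ B) (hB : B < 1) :
    (ℝ × ℝ) ≃ₜ (ℝ × ℝ) where
  toFun p := (fwd A B K S p.1 p.2, p.2)
  invFun p := (bwd A B K S p.1 p.2, p.2)
  left_inv p := by
    apply Prod.ext
    · exact bwd_fwd hA hB0 hB _ _
    · rfl
  right_inv p := by
    apply Prod.ext
    · exact fwd_bwd hA hB0 hB _ _
    · rfl
  continuous_toFun := by
    unfold fwd
    fun_prop
  continuous_invFun := by
    unfold bwd
    have h1 : 0 < 1 + A := by linarith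
    have h2 : 0 < 1 - B := by linarith
    fun_prop

/-- the coordinates with origin `v` and first axis `w` -/
noncomputable def coord (v w : ℝ × ℝ) (hw : w.1 ^ 2 + w.2 ^ 2 ≠ 0) : (ℝ × ℝ) ≃ₜ (ℝ × ℝ) where
  toFun p := (((p.1 - v.1) * w.1 + (p.2 - v.2) * w.2) / (w.1 ^ 2 + w.2 ^ 2),
    (-(p.1 - v.1) * w.2 + (p.2 - v.2) * w.1) / (w.1 ^ 2 + w.2 ^ 2))
  invFun q := (v.1 + q.1 * w.1 - q.2 * w.2, v.2 + q.1 * w.2 + q.2 * w.1)
  left_inv p := by
    apply Prod.ext
    · field_simp; ring
    · field_simp; ring
  right_inv q := by
    apply Prod.ext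
    · simp only
      rw [div_eq_iff hw]; ring
    · simp only
      rw [div_eq_iff hw]; ring
  continuous_toFun := by fun_prop
  continuous_invFun := by fun_prop

/-- the stretching homeomorphism at the vertex `v` -/
noncomputable def stretch (v w : ℝ × ℝ) (hw : w.1 ^ 2 + w.2 ^ 2 ≠ 0) (A B K S : ℝ) (hA : 0 ≤ A)
    (hB0 : 0 ≤ B) (hB : B < 1) : (ℝ × ℝ) ≃ₜ (ℝ × ℝ) :=
  (coord v w hw).trans ((core A B K S hA hB0 hB).trans (coord v w hw).symm)

end Pool.Agent.W263.Spur
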