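import Mathlib
import Pool.Agent.W263.Spur

set_option autoImplicit false

namespace Pool.Agent.W263.Spur

open Set Pool.Agent.Helper337.PolygonPattern

/-- first coordinate -/
noncomputable def cs (v w p : ℝ × ℝ) : ℝ :=
  ((p.1 - v.1) * w.1 + (p.2 - v.2) * w.2) / (w.1 ^ 2 + w.2 ^ 2)

/-- second coordinate -/
noncomputable def ct (v w p : ℝ × ℝ) : ℝ :=
  (-(p.1 - v.1) * w.2 + (p.2 - v.2) * w.1) / (w.1 ^ 2 + w.2 ^ 2)

/-- the open triangle which supports the stretching -/
def Tri (v w : ℝ × ℝ) (S : ℝ) : Set (ℝ × ℝ) := {p | |ct v w p| < cs v w p ∧ cs v w p < S}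

theorem stretch_aux (v w : ℝ × ℝ) (hw : w.1 ^ 2 + w.2 ^ 2 ≠ 0) (S e1 e2 : ℝ) (h1 : 0 < e1)
    (h12 : e1 ≤ e2) (h2 : e2 < S) : ∃ h : (ℝ × ℝ) ≃ₜ (ℝ × ℝ),
      (∀ p, p ∉ Tri v w S → h p = p) ∧ h (v + e1 • w) = v + e2 • w ∧
      h '' segment ℝ v (v + e1 • w) = segment ℝ v (v + e2 • w) := by
  have hA : 0 ≤ (e2 - e1) / e1 := div_nonneg (by linarith) h1.le
  have hB0 : 0 ≤ (e2 - e1) / (S - e1) := div_nonneg (by linarith) (by linarith)
  have hB : (e2 - e1) / (S - e1) < 1 := by rw [div_lt_one (by linarith)]; linarith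
  have hline : ∀ r : ℝ, 0 ≤ r → r ≤ e1 →
      stretch v w hw ((e2 - e1) / e1) ((e2 - e1) / (S - e1)) 1 S hA hB0 hB (v + r • w) =
        v + (e2 / e1 * r) • w := by
    intro r h0 hr
    have hS : 0 < S - e1 := by linarith
    have hc : (coord v w hw) (v + r • w) = (r, 0) := by
      apply Prod.ext
      · simp only [coord, Homeomorph.homeomorph_mk_coe, Equiv.coe_fn_mk, Prod.fst_add,
          Prod.smul_fst, smul_eq_mul, Prod.snd_add, Prod.smul_snd]
        rw [div_eq_iff hw]; ring
      · simp only [coord, Homeomorph.homeomorph_mk_coe, Equiv.coe_fn_mk, Prod.fst_add,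
          Prod.smul_fst, smul_eq_mul, Prod.snd_add, Prod.smul_snd]
        rw [div_eq_iff hw]; ring
    have hf : fwd ((e2 - e1) / e1) ((e2 - e1) / (S - e1)) 1 S r 0 = e2 / e1 * r := by
      unfold fwd
      rw [abs_zero, mul_zero, mul_zero, sub_zero]
      have e3 : (1 + (e2 - e1) / e1) * r = e2 / e1 * r := by field_simp; ring
      have e4 : r ≤ e2 / e1 * r := by
        have : 1 ≤ e2 / e1 := by rw [one_le_div h1]; exact h12
        nlinarith
      have e5 : e2 / e1 * r ≤ (1 - (e2 - e1) / (S - e1)) * r + (e2 - e1) / (S - e1) * S := by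
        have e6 : (1 - (e2 - e1) / (S - e1)) * r + (e2 - e1) / (S - e1) * S - e2 / e1 * r =
          (e2 - e1) * (e1 - r) * (1 / (S - e1) + 1 / e1) := by
          field_simp; ring
        have e7 : 0 ≤ (e2 - e1) * (e1 - r) * (1 / (S - e1) + 1 / e1) := by
          have : 0 ≤ 1 / (S - e1) + 1 / e1 := by positivity
          exact mul_nonneg (mul_nonneg (by linarith) (by linarith)) this
        linarith
      rw [e3, min_eq_left e5, max_eq_right e4]
    show (coord v w hw).symm (core _ _ _ _ hA hB0 hB ((coord v w hw) (v + r • w))) = _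
    rw [hc]
    show (coord v w hw).symm (fwd _ _ _ _ r 0, 0) = _
    rw [hf]
    apply Prod.ext
    · show v.1 + e2 / e1 * r * w.1 - 0 * w.2 = _
      simp
    · show v.2 + e2 / e1 * r * w.2 + 0 * w.1 = _
      simp
  refine ⟨stretch v w hw ((e2 - e1) / e1) ((e2 - e1) / (S - e1)) 1 S hA hB0 hB, ?_, ?_, ?_⟩
  · intro p hp
    show (coord v w hw).symm (core _ _ _ _ hA hB0 hB ((coord v w hw) p)) = p
    have hc : (coord v w hw) p = (cs v w p, ct v w p) := rfl
    have : core ((e2 - e1) / e1) ((e2 - e1) / (S - e1)) 1 S hA hB0 hB (cs v w p, ct v w p) =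
        (cs v w p, ct v w p) := by
      show (fwd _ _ _ _ (cs v w p) (ct v w p), ct v w p) = _
      congr 1
      unfold fwd
      apply max_eq_left
      rw [one_mul]
      by_cases h : |ct v w p| < cs v w p
      · have h' : S ≤ cs v w p := by
          by_contra hcon
          exact hp ⟨h, not_le.1 hcon⟩
        apply min_le_of_right_le
        nlinarith
      · apply min_le_of_left_le
        have h' : cs v w p ≤ |ct v w p| := not_lt.1 h
        nlinarith
    rw [hc, this, ← hc]
    exact (coord v w hw).symm_apply_apply p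
  · rw [hline e1 h1.le le_rfl, div_mul_cancel₀ _ h1.ne']
  · ext q
    constructor
    · rintro ⟨p, hp, rfl⟩
      obtain ⟨a, b, ha, hb, hab, rfl⟩ := hp
      have e3 : a • v + b • (v + e1 • w) = v + (b * e1) • w := by
        have : a = 1 - b := by linarith
        rw [this, smul_add, sub_smul, one_smul, smul_smul]
        abel
      rw [e3, hline (b * e1) (by positivity) (by nlinarith)]
      refine ⟨a, b, ha, hb, hab, ?_⟩
      have : a = 1 - b := by linarith
      rw [this, smul_add, sub_smul, one_smul, smul_smul]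
      have e4 : e2 / e1 * (b * e1) = b * e2 := by field_simp
      rw [e4]
      abel
    · rintro ⟨a, b, ha, hb, hab, rfl⟩
      refine ⟨v + (b * e1) • w, ⟨a, b, ha, hb, hab, ?_⟩, ?_⟩
      · have : a = 1 - b := by linarith
        rw [this, smul_add, sub_smul, one_smul, smul_smul]
        abel
      · rw [hline (b * e1) (by positivity) (by nlinarith)]
        have : a = 1 - b := by linarith
        rw [this, smul_add, sub_smul, one_smul, smul_smul]
        have e4 : e2 / e1 * (b * e1) = b * e2 := by field_simp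
        rw [e4]
        abel

theorem exists_stretch (v w : ℝ × ℝ) (hw : w.1 ^ 2 + w.2 ^ 2 ≠ 0) (S e1 e2 : ℝ) (h1 : 0 < e1)
    (h1' : e1 < S) (h2 : 0 < e2) (h2' : e2 < S) : ∃ h : (ℝ × ℝ) ≃ₜ (ℝ × ℝ),
      (∀ p, p ∉ Tri v w S → h p = p) ∧ h (v + e1 • w) = v + e2 • w ∧
      h '' segment ℝ v (v + e1 • w) = segment ℝ v (v + e2 • w) := by
  rcases le_total e1 e2 with h | h
  · exact stretch_aux v w hw S e1 e2 h1 h h2'
  · obtain ⟨g, g1, g2, g3⟩ := stretch_aux v w hw S e2 e1 h2 h h1'
    refine ⟨g.symm, ?_, ?_, ?_⟩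
    · intro p hp
      rw [Homeomorph.symm_apply_eq]
      exact (g1 p hp).symm
    · rw [← g2, Homeomorph.symm_apply_apply]
    · rw [← g3, ← Set.image_comp]
      have : (g.symm ∘ g) = id := by funext p; simp
      rw [this, Set.image_id]

/-- all spurs at the same time -/
theorem exists_all {n : ℕ} (v w : Fin n → ℝ × ℝ) (hw : ∀ i, (w i).1 ^ 2 + (w i).2 ^ 2 ≠ 0)
    (S e1 e2 : ℝ) (h1 : 0 < e1) (h1' : e1 < S) (h2 : 0 < e2) (h2' : e2 < S)
    (hd : ∀ i j, i ≠ j → ∀ e, 0 < e → e < S →
      ∀ p ∈ segment ℝ (v i) (v i + e • w i), p ∉ Tri (v j) (w j) S) (s : Finset (Fin n)) :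
    ∃ h : (ℝ × ℝ) ≃ₜ (ℝ × ℝ), (∀ p, (∀ i ∈ s, p ∉ Tri (v i) (w i) S) → h p = p) ∧
      ∀ i ∈ s, h (v i + e1 • w i) = v i + e2 • w i ∧
        h '' segment ℝ (v i) (v i + e1 • w i) = segment ℝ (v i) (v i + e2 • w i) := by
  classical
  induction s using Finset.induction_on with
  | empty => exact ⟨Homeomorph.refl _, fun p _ => rfl, fun i hi => absurd hi (Finset.notMem_empty i)⟩
  | insert a s ha ih =>
    obtain ⟨H, H1, H2⟩ := ih
    obtain ⟨g, g1, g2, g3⟩ := exists_stretch (v a) (w a) (hw a) S e1 e2 h1 h1' h2 h2'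
    refine ⟨H.trans g, ?_, ?_⟩
    · intro p hp
      show g (H p) = p
      rw [H1 p (fun i hi => hp i (Finset.mem_insert_of_mem hi)), g1 p (hp a (Finset.mem_insert_self a s))]
    · intro i hi
      rcases Finset.mem_insert.1 hi with rfl | hi
      · have hfix : ∀ p ∈ segment ℝ (v i) (v i + e1 • w i), H p = p := by
          intro p hp
          apply H1
          intro j hj
          exact hd i j (fun h => ha (h ▸ hj)) e1 h1 h1' p hp
        constructor
        · show g (H _) = _
          rw [hfix _ (right_mem_segment ℝ _ _), g2]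
        · show (g ∘ H) '' _ = _
          rw [Set.image_comp]
          have : H '' segment ℝ (v i) (v i + e1 • w i) = segment ℝ (v i) (v i + e1 • w i) := by
            rw [Set.image_congr hfix]
            simp
          rw [this, g3]
      · have hia : i ≠ a := fun h => ha (h ▸ hi)
        have hfix : ∀ p ∈ segment ℝ (v i) (v i + e2 • w i), g p = p := by
          intro p hp
          apply g1
          exact hd i a hia e2 h2 h2' p hp
        constructor
        · show g (H _) = _
          rw [(H2 i hi).1, hfix _ (right_mem_segment ℝ _ _)]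
        · show (g ∘ H) '' _ = _
          rw [Set.image_comp, (H2 i hi).2, Set.image_congr hfix]
          simp

end Pool.Agent.W263.Spur
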