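import Mathlib
import Pool.Agent.W263.Spur2

set_option autoImplicit false

namespace Pool.Agent.W263.Spur

open Set Pool.Agent.Helper337.PolygonPattern

/-- outer vector at the vertex `i` -/
def WZ (i : ZMod 14) : ℤ × ℤ :=
  (2 * (XZ i).1 - (XZ (i - 1)).1 - (XZ (i + 1)).1, 2 * (XZ i).2 - (XZ (i - 1)).2 - (XZ (i + 1)).2)

def VV (i : ZMod 14) : ℝ × ℝ := toR (XZ i)
def WW (i : ZMod 14) : ℝ × ℝ := toR (WZ i)

theorem WZ_test : ∀ i, (WZ i).1 ^ 2 + (WZ i).2 ^ 2 ≠ 0 ∧ |(WZ i).1| + |(WZ i).2| ≤ 600 := by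
  decide +kernel

theorem WW_ne (i : ZMod 14) : (WW i).1 ^ 2 + (WW i).2 ^ 2 ≠ 0 := by
  have := (WZ_test i).1
  intro h
  apply this
  simp only [WW, toR] at h
  exact_mod_cast h

theorem WW_bd (i : ZMod 14) : |(WW i).1| + |(WW i).2| ≤ 600 := by
  have := (WZ_test i).2
  simp only [WW, toR]
  exact_mod_cast this

theorem XZ_inj : ∀ i j : ZMod 14, i ≠ j → XZ i ≠ XZ j := by decide +kernel

/-- the size of the neighbourhoods -/
noncomputable def SS : ℝ := 1 / 2000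

theorem coords_eq (v w p : ℝ × ℝ) (hw : w.1 ^ 2 + w.2 ^ 2 ≠ 0) :
    p.1 - v.1 = cs v w p * w.1 - ct v w p * w.2 ∧ p.2 - v.2 = cs v w p * w.2 + ct v w p * w.1 := by
  unfold cs ct
  constructor <;> field_simp <;> ring

/-- the triangles are small -/
theorem tri_box {i : ZMod 14} {p : ℝ × ℝ} (h : p ∈ Tri (VV i) (WW i) SS) :
    |p.1 - (VV i).1| < 1 / 3 ∧ |p.2 - (VV i).2| < 1 / 3 := by
  obtain ⟨h1, h2⟩ := h
  obtain ⟨e1, e2⟩ := coords_eq (VV i) (WW i) p (WW_ne i)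
  have hb := WW_bd i
  rw [e1, e2]
  set s := cs (VV i) (WW i) p
  set t := ct (VV i) (WW i) p
  have hs : |s| ≤ 1 / 2000 := by
    have : 0 ≤ |t| := abs_nonneg t
    rw [abs_of_nonneg (by linarith)]
    unfold SS at h2
    linarith
  have ht : |t| ≤ 1 / 2000 := by
    unfold SS at h2
    linarith
  have a1 := abs_nonneg (WW i).1
  have a2 := abs_nonneg (WW i).2
  constructor
  · calc |s * (WW i).1 - t * (WW i).2| ≤ |s * (WW i).1| + |t * (WW i).2| := abs_sub _ _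
      _ = |s| * |(WW i).1| + |t| * |(WW i).2| := by rw [abs_mul, abs_mul]
      _ ≤ 1 / 2000 * |(WW i).1| + 1 / 2000 * |(WW i).2| := by gcongr
      _ < 1 / 3 := by linarith
  · calc |s * (WW i).2 + t * (WW i).1| ≤ |s * (WW i).2| + |t * (WW i).1| := abs_add_le _ _
      _ = |s| * |(WW i).2| + |t| * |(WW i).1| := by rw [abs_mul, abs_mul]
      _ ≤ 1 / 2000 * |(WW i).2| + 1 / 2000 * |(WW i).1| := by gcongr
      _ < 1 / 3 := by linarith

theorem seg_box {i : ZMod 14} {e : ℝ} (h0 : 0 < e) (h1 : e < SS) {p : ℝ × ℝ}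
    (h : p ∈ segment ℝ (VV i) (VV i + e • WW i)) :
    |p.1 - (VV i).1| < 1 / 3 ∧ |p.2 - (VV i).2| < 1 / 3 := by
  obtain ⟨a, b, ha, hb, hab, rfl⟩ := h
  have hbd := WW_bd i
  have a1 := abs_nonneg (WW i).1
  have a2 := abs_nonneg (WW i).2
  have ea : a = 1 - b := by linarith
  have e1 : (a • VV i + b • (VV i + e • WW i)).1 - (VV i).1 = b * e * (WW i).1 := by
    rw [ea]; simp; ring
  have e2 : (a • VV i + b • (VV i + e • WW i)).2 - (VV i).2 = b * e * (WW i).2 := by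
    rw [ea]; simp; ring
  have hbe : |b * e| ≤ 1 / 2000 := by
    rw [abs_of_nonneg (by positivity)]
    unfold SS at h1
    nlinarith
  rw [e1, e2]
  constructor
  · rw [abs_mul]
    calc |b * e| * |(WW i).1| ≤ 1 / 2000 * |(WW i).1| := by gcongr
      _ < 1 / 3 := by linarith
  · rw [abs_mul]
    calc |b * e| * |(WW i).2| ≤ 1 / 2000 * |(WW i).2| := by gcongr
      _ < 1 / 3 := by linarith

theorem box_disj {i j : ZMod 14} (hij : i ≠ j) (p : ℝ × ℝ)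
    (hi : |p.1 - (VV i).1| < 1 / 3 ∧ |p.2 - (VV i).2| < 1 / 3)
    (hj : |p.1 - (VV j).1| < 1 / 3 ∧ |p.2 - (VV j).2| < 1 / 3) : False := by
  apply XZ_inj i j hij
  obtain ⟨h1, h2⟩ := hi
  obtain ⟨h3, h4⟩ := hj
  rw [abs_lt] at h1 h2 h3 h4
  have e1 : ((XZ i).1 : ℝ) - (XZ j).1 < 1 := by
    simp only [VV, toR] at h1 h3; linarith
  have e2 : ((XZ j).1 : ℝ) - (XZ i).1 < 1 := by
    simp only [VV, toR] at h1 h3; linarith
  have e3 : ((XZ i).2 : ℝ) - (XZ j).2 < 1 := by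
    simp only [VV, toR] at h2 h4; linarith
  have e4 : ((XZ j).2 : ℝ) - (XZ i).2 < 1 := by
    simp only [VV, toR] at h2 h4; linarith
  have f1 : (XZ i).1 - (XZ j).1 < 1 := by exact_mod_cast e1
  have f2 : (XZ j).1 - (XZ i).1 < 1 := by exact_mod_cast e2
  have f3 : (XZ i).2 - (XZ j).2 < 1 := by exact_mod_cast e3
  have f4 : (XZ j).2 - (XZ i).2 < 1 := by exact_mod_cast e4
  exact Prod.ext (by omega) (by omega)

/-- separation of a vertex from an edge by one of eight functionals -/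
def farTest (v p q : ℤ × ℤ) : Bool :=
  (decide (v.1 ≥ p.1 + 1) && decide (v.1 ≥ q.1 + 1)) ||
  (decide (v.1 + 1 ≤ p.1) && decide (v.1 + 1 ≤ q.1)) ||
  (decide (v.2 ≥ p.2 + 1) && decide (v.2 ≥ q.2 + 1)) ||
  (decide (v.2 + 1 ≤ p.2) && decide (v.2 + 1 ≤ q.2)) ||
  (decide (v.1 + v.2 ≥ p.1 + p.2 + 1) && decide (v.1 + v.2 ≥ q.1 + q.2 + 1)) ||
  (decide (v.1 + v.2 + 1 ≤ p.1 + p.2) && decide (v.1 + v.2 + 1 ≤ q.1 + q.2)) ||
  (decide (v.1 - v.2 ≥ p.1 - p.2 + 1) && decide (v.1 - v.2 ≥ q.1 - q.2 + 1)) ||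
  (decide (v.1 - v.2 + 1 ≤ p.1 - p.2) && decide (v.1 - v.2 + 1 ≤ q.1 - q.2))

theorem farTest_all : ∀ i j : ZMod 14, j = i ∨ j + 1 = i ∨ farTest (XZ i) (XZ j) (XZ (j + 1)) = true := by
  decide +kernel

theorem conv_lt {a b x y z r : ℝ} (ha : 0 ≤ a) (hb : 0 ≤ b) (hab : a + b = 1)
    (hx : x + r ≤ z) (hy : y + r ≤ z) : a * x + b * y + r ≤ z := by
  have : a * (x + r) + b * (y + r) ≤ a * z + b * z :=
    add_le_add (mul_le_mul_of_nonneg_left hx ha) (mul_le_mul_of_nonneg_left hy hb)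
  have e : a * z + b * z = z := by rw [← add_mul, hab, one_mul]
  have e' : a * (x + r) + b * (y + r) = a * x + b * y + (a + b) * r := by ring
  rw [e, e', hab, one_mul] at this
  exact this

theorem far_disj {v q r : ℤ × ℤ} (h : farTest v q r = true) (p : ℝ × ℝ)
    (hp : p ∈ segment ℝ (toR q) (toR r))
    (hb : |p.1 - (toR v).1| < 1 / 3 ∧ |p.2 - (toR v).2| < 1 / 3) : False := by
  obtain ⟨a, b, ha, hb', hab, rfl⟩ := hp
  obtain ⟨h1, h2⟩ := hb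
  rw [abs_lt] at h1 h2
  simp only [toR, Prod.fst_add, Prod.smul_fst, smul_eq_mul, Prod.snd_add, Prod.smul_snd] at h1 h2
  simp only [farTest, Bool.or_eq_true, Bool.and_eq_true, decide_eq_true_eq] at h
  rcases h with ((((((h | h) | h) | h) | h) | h) | h) | h
  · have c1 : (q.1 : ℝ) + 1 ≤ v.1 := by exact_mod_cast h.1
    have c2 : (r.1 : ℝ) + 1 ≤ v.1 := by exact_mod_cast h.2
    have := conv_lt ha hb' hab c1 c2
    linarith
  · have c1 : -(q.1 : ℝ) + 1 ≤ -v.1 := by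
      have : (v.1 : ℝ) + 1 ≤ q.1 := by exact_mod_cast h.1
      linarith
    have c2 : -(r.1 : ℝ) + 1 ≤ -v.1 := by
      have : (v.1 : ℝ) + 1 ≤ r.1 := by exact_mod_cast h.2
      linarith
    have := conv_lt ha hb' hab c1 c2
    linarith
  · have c1 : (q.2 : ℝ) + 1 ≤ v.2 := by exact_mod_cast h.1
    have c2 : (r.2 : ℝ) + 1 ≤ v.2 := by exact_mod_cast h.2
    have := conv_lt ha hb' hab c1 c2
    linarith
  · have c1 : -(q.2 : ℝ) + 1 ≤ -v.2 := by
      have : (v.2 : ℝ) + 1 ≤ q.2 := by exact_mod_cast h.1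
      linarith
    have c2 : -(r.2 : ℝ) + 1 ≤ -v.2 := by
      have : (v.2 : ℝ) + 1 ≤ r.2 := by exact_mod_cast h.2
      linarith
    have := conv_lt ha hb' hab c1 c2
    linarith
  · have c1 : ((q.1 : ℝ) + q.2) + 1 ≤ v.1 + v.2 := by exact_mod_cast h.1
    have c2 : ((r.1 : ℝ) + r.2) + 1 ≤ v.1 + v.2 := by exact_mod_cast h.2
    have := conv_lt ha hb' hab c1 c2
    linarith
  · have c1 : -((q.1 : ℝ) + q.2) + 1 ≤ -(v.1 + v.2) := by
      have : (v.1 : ℝ) + v.2 + 1 ≤ q.1 + q.2 := by exact_mod_cast h.1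
      linarith
    have c2 : -((r.1 : ℝ) + r.2) + 1 ≤ -(v.1 + v.2) := by
      have : (v.1 : ℝ) + v.2 + 1 ≤ r.1 + r.2 := by exact_mod_cast h.2
      linarith
    have := conv_lt ha hb' hab c1 c2
    linarith
  · have c1 : ((q.1 : ℝ) - q.2) + 1 ≤ v.1 - v.2 := by exact_mod_cast h.1
    have c2 : ((r.1 : ℝ) - r.2) + 1 ≤ v.1 - v.2 := by exact_mod_cast h.2
    have := conv_lt ha hb' hab c1 c2
    linarith
  · have c1 : -((q.1 : ℝ) - q.2) + 1 ≤ -(v.1 - v.2) := by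
      have : (v.1 : ℝ) - v.2 + 1 ≤ q.1 - q.2 := by exact_mod_cast h.1
      linarith
    have c2 : -((r.1 : ℝ) - r.2) + 1 ≤ -(v.1 - v.2) := by
      have : (v.1 : ℝ) - v.2 + 1 ≤ r.1 - r.2 := by exact_mod_cast h.2
      linarith
    have := conv_lt ha hb' hab c1 c2
    linarith

theorem incTest : ∀ i : ZMod 14,
    ((XZ (i + 1)).1 - (XZ i).1) * (WZ i).1 + ((XZ (i + 1)).2 - (XZ i).2) * (WZ i).2 ≤ 0 ∧
    ((XZ i).1 - (XZ (i + 1)).1) * (WZ (i + 1)).1 + ((XZ i).2 - (XZ (i + 1)).2) * (WZ (i + 1)).2 ≤ 0 := by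
  decide +kernel

/-- a point of a segment which starts at `v` and does not point into the half plane of `w` -/
theorem inc_disj {v w q : ℤ × ℤ} (h : (q.1 - v.1) * w.1 + (q.2 - v.2) * w.2 ≤ 0) (p : ℝ × ℝ)
    (hp : p ∈ segment ℝ (toR v) (toR q)) (S : ℝ) : p ∉ Tri (toR v) (toR w) S := by
  rintro ⟨h1, -⟩
  obtain ⟨a, b, ha, hb', hab, rfl⟩ := hp
  have h0 := abs_nonneg (ct (toR v) (toR w) (a • toR v + b • toR q))
  have h2 : 0 < cs (toR v) (toR w) (a • toR v + b • toR q) := by linarith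
  have h3 : ((q.1 : ℝ) - v.1) * w.1 + ((q.2 : ℝ) - v.2) * w.2 ≤ 0 := by exact_mod_cast h
  have ea : a = 1 - b := by linarith
  have h4 : cs (toR v) (toR w) (a • toR v + b • toR q) =
      b * (((q.1 : ℝ) - v.1) * w.1 + ((q.2 : ℝ) - v.2) * w.2) / ((w.1 : ℝ) ^ 2 + (w.2 : ℝ) ^ 2) := by
    unfold cs
    congr 1
    rw [ea]
    simp only [toR, Prod.fst_add, Prod.smul_fst, smul_eq_mul, Prod.snd_add, Prod.smul_snd]
    ring
  rw [h4] at h2
  have h5 : b * (((q.1 : ℝ) - v.1) * w.1 + ((q.2 : ℝ) - v.2) * w.2) / ((w.1 : ℝ) ^ 2 + (w.2 : ℝ) ^ 2) ≤ 0 :=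
    div_nonpos_of_nonpos_of_nonneg (mul_nonpos_of_nonneg_of_nonpos hb' h3) (by positivity)
  linarith

/-- the edges do not meet the triangles -/
theorem edge_disj (i j : ZMod 14) (p : ℝ × ℝ) (hp : p ∈ edge xx j) : p ∉ Tri (VV i) (WW i) SS := by
  rcases farTest_all i j with h | h | h
  · subst h
    exact inc_disj (incTest j).1 p hp SS
  · subst h
    have hp' : p ∈ segment ℝ (toR (XZ (j + 1))) (toR (XZ j)) := by
      rw [segment_symm]; exact hp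
    exact inc_disj (incTest j).2 p hp' SS
  · intro ht
    exact far_disj h p hp (tri_box ht)

theorem spur_disj (i j : ZMod 14) (hij : i ≠ j) (e : ℝ) (h0 : 0 < e) (h1 : e < SS)
    (p : ℝ × ℝ) (hp : p ∈ segment ℝ (VV i) (VV i + e • WW i)) : p ∉ Tri (VV j) (WW j) SS :=
  fun h => box_disj hij p (seg_box h0 h1 hp) (tri_box h)

theorem stretch_xx (e1 e2 : ℝ) (h1 : 0 < e1) (h1' : e1 < SS) (h2 : 0 < e2) (h2' : e2 < SS) :
    ∃ h : (ℝ × ℝ) ≃ₜ (ℝ × ℝ), (∀ j, ∀ p ∈ edge xx j, h p = p) ∧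
      ∀ i, h (VV i + e1 • WW i) = VV i + e2 • WW i ∧
        h '' segment ℝ (VV i) (VV i + e1 • WW i) = segment ℝ (VV i) (VV i + e2 • WW i) := by
  obtain ⟨h, H1, H2⟩ := exists_all (n := 14) VV WW WW_ne SS e1 e2 h1 h1' h2 h2'
    (fun i j hij e h0 h1 p hp => spur_disj i j hij e h0 h1 p hp) Finset.univ
  refine ⟨h, ?_, ?_⟩
  · intro j p hp
    apply H1
    intro i _
    exact edge_disj i j p hp
  · intro i
    exact H2 i (Finset.mem_univ i)

end Pool.Agent.W263.Spur
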