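import Mathlib
import Pool.Agent.W263.Spur3

set_option autoImplicit false

namespace Pool.Agent.W263.Spur

open Set Pool.Agent.Helper337.PolygonPattern

/-- the rotation of the labels -/
def rotZ : Equiv.Perm (ZMod 14) := finRotate 14

def fE (x : ZMod 14 → ℝ × ℝ) (i : ZMod 14) : Set (ℝ × ℝ) := segment ℝ (x i) (x (rotZ i))

noncomputable def fP (x : ZMod 14 → ℝ × ℝ) (ε : ℝ) (i : ZMod 14) : ℝ × ℝ :=
  x i + ε • ((2:ℝ) • x i - x (rotZ.symm i) - x (rotZ i))

noncomputable def fM (x : ZMod 14 → ℝ × ℝ) (ε : ℝ) : Set (ℝ × ℝ) :=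
  (⋃ i, fE x i) ∪ ⋃ i, segment ℝ (x i) (fP x ε i)

noncomputable def fN (x : ZMod 14 → ℝ × ℝ) (ε : ℝ) : Set (ℝ × ℝ) :=
  Set.range x ∪ {p : ℝ × ℝ | ∃ i j, i ≠ j ∧ p ∈ fE x i ∧ p ∈ fE x j} ∪ Set.range (fP x ε)

theorem rot (i : ZMod 14) : rotZ i = i + 1 := finRotate_apply (n := 14) i

theorem rot_symm (i : ZMod 14) : rotZ.symm i = i - 1 := by
  rw [Equiv.symm_apply_eq, rot, sub_add_cancel]

theorem fE_eq (x : ZMod 14 → ℝ × ℝ) (i : ZMod 14) : fE x i = edge  x i := by
  unfold fE edge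
  rw [rot]

theorem fP_xx (ε : ℝ) (i : ZMod 14) : fP xx ε i = VV i + ε • WW i := by
  unfold fP
  rw [rot, rot_symm]
  have : (2:ℝ) • xx i - xx (i - 1) - xx (i + 1) = WW i := by
    simp only [WW, WZ, toR]
    apply Prod.ext
    · simp [xx, toR]
    · simp [xx, toR]
  rw [this]
  rfl

theorem tauL (p q : ℝ × ℝ) (r : ℝ) : tau (p + r • q) = tau p + r • tau q := by
  simp only [tau_apply]
  apply Prod.ext
  · simp
  · simp; ring

theorem fP_yy (ε : ℝ) (i : ZMod 14) : tau (fP xx ε i) = fP yy ε (i + 7) := by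
  unfold fP
  rw [rot, rot_symm, rot, rot_symm, tauL]
  have h1 : (i + 7 - 1 : ZMod 14) = (i - 1) + 7 := by revert i; decide +kernel
  have h2 : (i + 7 + 1 : ZMod 14) = (i + 1) + 7 := by revert i; decide +kernel
  rw [h1, h2]
  have e0 : tau (xx i) = yy (i + 7) := tau_xx i
  have e1 : tau (xx (i - 1)) = yy ((i - 1) + 7) := tau_xx (i - 1)
  have e2 : tau (xx (i + 1)) = yy ((i + 1) + 7) := tau_xx (i + 1)
  rw [← e0, ← e1, ← e2]
  congr 2
  simp only [tau_apply]
  apply Prod.ext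
  · simp
  · simp; ring

theorem shift7 {α : Type} (f : ZMod 14 → Set α) : ⋃ i, f (i + 7) = ⋃ i, f i :=
  (Equiv.addRight (7 : ZMod 14)).surjective.iUnion_comp f

theorem tau_fM (ε : ℝ) : tau '' fM xx ε = fM yy ε := by
  unfold fM
  rw [image_union, image_iUnion, image_iUnion]
  congr 1
  · simp only [fE_eq]
    have : ∀ i : ZMod 14, tau '' edge  xx i = edge  yy (i + 7) := fun i => tau_edge i
    simp only [this]
    exact shift7 (fun i => edge  yy i)
  · have : ∀ i : ZMod 14, tau '' segment ℝ (xx i) (fP xx ε i) =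
        segment ℝ (yy (i + 7)) (fP yy ε (i + 7)) := by
      intro i
      rw [tau_segment, fP_yy]
      congr 1
      exact tau_xx i
    simp only [this]
    exact shift7 (fun i => segment ℝ (yy i) (fP yy ε i))

theorem seven_seven (i : ZMod 14) : i + 7 + 7 = i := by revert i; decide +kernel

theorem tau_fN (ε : ℝ) : tau '' fN xx ε = fN yy ε := by
  unfold fN
  rw [image_union, image_union]
  congr 1
  · congr 1
    · ext p
      constructor
      · rintro ⟨_, ⟨i, rfl⟩, rfl⟩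
        exact ⟨i + 7, (tau_xx i).symm⟩
      · rintro ⟨i, rfl⟩
        refine ⟨xx (i + 7), ⟨i + 7, rfl⟩, ?_⟩
        have : tau (xx (i + 7)) = yy ((i + 7) + 7) := tau_xx (i + 7)
        rw [this, seven_seven]
    · ext p
      constructor
      · rintro ⟨q, ⟨i, j, hij, hi, hj⟩, rfl⟩
        refine ⟨i + 7, j + 7, fun h => hij (add_right_cancel h), ?_, ?_⟩
        · rw [fE_eq] at hi ⊢
          have : tau '' edge  xx i = edge  yy (i + 7) := tau_edge i
          rw [← this]
          exact mem_image_of_mem _ hi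
        · rw [fE_eq] at hj ⊢
          have : tau '' edge  xx j = edge  yy (j + 7) := tau_edge j
          rw [← this]
          exact mem_image_of_mem _ hj
      · rintro ⟨i, j, hij, hi, hj⟩
        have hi' : p ∈ edge  yy ((i + 7) + 7) := by
          rw [seven_seven, ← fE_eq]; exact hi
        have hj' : p ∈ edge  yy ((j + 7) + 7) := by
          rw [seven_seven, ← fE_eq]; exact hj
        have e1 : tau '' edge  xx (i + 7) = edge  yy ((i + 7) + 7) := tau_edge _
        have e2 : tau '' edge  xx (j + 7) = edge  yy ((j + 7) + 7) := tau_edge _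
        rw [← e1] at hi'
        rw [← e2] at hj'
        obtain ⟨q, hq, hqp⟩ := hi'
        obtain ⟨q', hq', hqp'⟩ := hj'
        have : q = q' := tau.injective (hqp.trans hqp'.symm)
        subst this
        refine ⟨q, ⟨i + 7, j + 7, fun h => hij (add_right_cancel h), ?_, ?_⟩, hqp⟩
        · rw [fE_eq]; exact hq
        · rw [fE_eq]; exact hq'
  · ext p
    constructor
    · rintro ⟨_, ⟨i, rfl⟩, rfl⟩
      exact ⟨i + 7, (fP_yy ε i).symm⟩
    · rintro ⟨i, rfl⟩
      refine ⟨fP xx ε (i + 7), ⟨i + 7, rfl⟩, ?_⟩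
      rw [fP_yy, seven_seven]

theorem same_pattern : ∃ δ : ℝ, 0 < δ ∧ ∀ ε₁ ε₂ : ℝ, 0 < ε₁ → ε₁ < δ → 0 < ε₂ → ε₂ < δ →
    ∃ h : Homeomorph (ℝ × ℝ) (ℝ × ℝ), h '' fM xx ε₁ = fM yy ε₂ ∧ h '' fN xx ε₁ = fN yy ε₂ := by
  refine ⟨SS, by norm_num [SS], ?_⟩
  intro e1 e2 h1 h1' h2 h2'
  obtain ⟨g, g1, g2⟩ := stretch_xx e1 e2 h1 h1' h2 h2'
  have gE : ∀ i : ZMod 14, g '' fE xx i = fE xx i := by
    intro i
    rw [fE_eq]
    rw [Set.image_congr (g1 i)]
    simp
  have gv : ∀ i : ZMod 14, g (xx i) = xx i := fun i => g1 i _ (left_mem_segment ℝ _ _)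
  have gM : g '' fM xx e1 = fM xx e2 := by
    unfold fM
    rw [image_union, image_iUnion, image_iUnion]
    congr 1
    · simp only [gE]
    · have : ∀ i : ZMod 14, g '' segment ℝ (xx i) (fP xx e1 i) = segment ℝ (xx i) (fP xx e2 i) := by
        intro i
        rw [fP_xx, fP_xx]
        exact (g2 i).2
      simp only [this]
  have gN : g '' fN xx e1 = fN xx e2 := by
    unfold fN
    rw [image_union, image_union]
    congr 1
    · congr 1
      · ext p
        constructor
        · rintro ⟨_, ⟨i, rfl⟩, rfl⟩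
          exact ⟨i, (gv i).symm⟩
        · rintro ⟨i, rfl⟩
          exact ⟨xx i, ⟨i, rfl⟩, gv i⟩
      · ext p
        constructor
        · rintro ⟨q, ⟨i, j, hij, hi, hj⟩, rfl⟩
          have : g q = q := by
            rw [fE_eq] at hi
            exact g1 i q hi
          rw [this]
          exact ⟨i, j, hij, hi, hj⟩
        · rintro ⟨i, j, hij, hi, hj⟩
          have : g p = p := by
            rw [fE_eq] at hi
            exact g1 i p hi
          exact ⟨p, ⟨i, j, hij, hi, hj⟩, this⟩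
    · ext p
      constructor
      · rintro ⟨_, ⟨i, rfl⟩, rfl⟩
        refine ⟨i, ?_⟩
        rw [fP_xx, fP_xx]
        exact (g2 i).1.symm
      · rintro ⟨i, rfl⟩
        refine ⟨fP xx e1 i, ⟨i, rfl⟩, ?_⟩
        rw [fP_xx, fP_xx]
        exact (g2 i).1
  refine ⟨g.trans tau, ?_, ?_⟩
  · show (tau ∘ g) '' _ = _
    rw [Set.image_comp, gM, tau_fM]
  · show (tau ∘ g) '' _ = _
    rw [Set.image_comp, gN, tau_fN]

/-- ordinary in the sense of the frozen statement -/
def fO (x : ZMod 14 → ℝ × ℝ) : Prop := ∀ (p : ℝ × ℝ) (i j k : ZMod 14), p ∈ fE x i → p ∈ fE x j →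
  p ∈ fE x k → i = j ∨ j = k ∨ i = k

theorem fO_iff (x : ZMod 14 → ℝ × ℝ) : fO x ↔ Ordinary  x := by
  constructor
  · intro h p i j k hij hjk hik hh
    obtain ⟨h1, h2, h3⟩ := hh
    rw [← fE_eq] at h1 h2 h3
    rcases h p i j k h1 h2 h3 with h' | h' | h'
    · exact hij h'
    · exact hjk h'
    · exact hik h'
  · intro h p i j k h1 h2 h3
    by_contra hcon
    push Not at hcon
    rw [fE_eq] at h1 h2 h3
    exact h p i j k hcon.1 hcon.2.1 hcon.2.2 ⟨h1, h2, h3⟩

def fR (x : ZMod 14 → ℝ × ℝ) : Prop := (∀ i, x i ≠ x (rotZ i)) ∧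
      ∀ i, ¬ Collinear ℝ ({x (rotZ.symm i), x i, x (rotZ i)} : Set (ℝ × ℝ))

theorem fR_of (x : ZMod 14 → ℝ × ℝ) (h1 : IsPolygon  x) (h2 : Proper  x) : fR x := by
  constructor
  · intro i
    rw [rot]
    exact h1 i
  · intro i
    rw [rot, rot_symm]
    exact h2 i

def fD (σ : Equiv.Perm (ZMod 14)) : Prop := (∀ i, σ (rotZ i) = rotZ (σ i)) ∨
      (∀ i, σ (rotZ i) = rotZ.symm (σ i))

theorem relab (σ : Equiv.Perm (ZMod 14)) (h : fD σ) : IsRelabelling (n := 14) σ := by
  rcases h with h | h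
  · refine ⟨σ 0, Or.inl ?_⟩
    have key : ∀ k : ℕ, σ (k : ZMod 14) = σ 0 + (k : ZMod 14) := by
      intro k
      induction k with
      | zero => simp
      | succ k ih =>
        have h1 := h (k : ZMod 14)
        rw [rot, rot, ih] at h1
        rw [Nat.cast_succ, h1, add_assoc]
    intro i
    have := key i.val
    rwa [ZMod.natCast_zmod_val] at this
  · refine ⟨σ 0, Or.inr ?_⟩
    have key : ∀ k : ℕ, σ (k : ZMod 14) = σ 0 - (k : ZMod 14) := by
      intro k
      induction k with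
      | zero => simp
      | succ k ih =>
        have h1 := h (k : ZMod 14)
        rw [rot, rot_symm, ih] at h1
        rw [Nat.cast_succ, h1, sub_sub]
    intro i
    have := key i.val
    rwa [ZMod.natCast_zmod_val] at this

def fL (x z : ZMod 14 → ℝ × ℝ) : Prop :=
  ∀ i, ∃ c : ℝ, 0 < c ∧ z (rotZ i) - z i = c • (x (rotZ i) - x i)

theorem fL_iff (x z : ZMod 14 → ℝ × ℝ) : fL x z ↔ ParallelEdges  x z := by
  unfold fL ParallelEdges
  simp only [rot]

end Pool.Agent.W263.Spur
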